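import Pool.Agent.Results.MP_53d700_al.RelativeLindel
import Pool.Agent.Results.MP_ed7674_ag.RamifiedRegularRings

/-!
# The Lam conjecture for smooth algebras over arithmetic surfaces and related rings
-/

set_option autoImplicit false

open Polynomial IsLocalRing Pool.Agent.W394.BQN Pool.Agent.Y808.LB
open Pool.Agent.Results.MP_ed7674_ag.RamifiedRegularRings (StablyFreeExtended key)

noncomputable section

namespace Pool.Agent.Results.MP_ed7674_ag.RelativeLindelStablyFree

/-- Stably free modules over `A[t_1,...,t_d]` are extended from `A` (1) if all localisations of `A`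
at primes belong to one of the classes of local rings `GoodPoint`; (2) if `A` is a smooth algebra
over a regular arithmetic surface `S / D` with tame fibre multiplicities; (3) if `A` is semistable
of dimension at most three over a discrete valuation ring of characteristic zero with algebraically
closed residue field. -/
theorem result :
    (∀ (A : Type) [CommRing A],
      (∀ (q : Ideal A) [q.IsPrime], GoodPoint (Localization.AtPrime q)) →
      StablyFreeExtended A) ∧
    (∀ (D S A : Type) [CommRing D] [IsDedekindDomain D] [CharZero D] [CommRing S]
      [IsDomain S] [IsRegularRing S] [Algebra D S] [CommRing A] [Algebra S A],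
      (∀ (o : Ideal D) [o.IsPrime], PerfectField o.ResidueField) → Algebra.FiniteType D S →
      Function.Injective (algebraMap D S) → ringKrullDim S ≤ 2 →
      (∀ (o : Ideal D) [o.IsPrime] (p : Ideal S) [p.IsPrime], o ≠ ⊥ → p.height = 1 →
        p.comap (algebraMap D S) = o → ∃ a : ℕ, (a : o.ResidueField) ≠ 0 ∧
          o.map (algebraMap D (Localization.AtPrime p)) =
            maximalIdeal (Localization.AtPrime p) ^ a) →
      Algebra.Smooth S A → StablyFreeExtended A) ∧
    ∀ (V A : Type) [CommRing V] [IsDomain V] [IsDiscreteValuationRing V]
      [CharZero V] [CommRing A] [Algebra V A] (π : V), IsAlgClosed (ResidueField V) →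
      Irreducible π → Algebra.FiniteType V A → ringKrullDim A ≤ 3 →
      (∀ (q : Ideal A) [q.IsPrime], SncPoint V π (Localization.AtPrime q)) →
      StablyFreeExtended A := by
  obtain ⟨h1, h2, h3⟩ := Pool.Agent.Results.MP_53d700_al.RelativeLindel.result
  refine ⟨fun A _ h => key A (h1 A h), ?_, ?_⟩
  · intro D S A _ _ _ _ _ _ _ _ _ h h' h'' h''' h4 h5
    exact key A (h2 D S A h h' h'' h''' h4 h5)
  · intro V A _ _ _ _ _ _ π h h' h'' h''' h4
    exact key A (h3 V A π h h' h'' h''' h4)

end Pool.Agent.Results.MP_ed7674_ag.RelativeLindelStablyFree
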